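import Pool.Agent.helper3.XT.Spec

set_option autoImplicit false

namespace Pool.Agent.XT

open Finset SimpleGraph

theorem CTR_other (j : Fin 3) : ∃ j' : Fin 3, j ≠ j' := by
  fin_cases j
  · exact ⟨1, by decide⟩
  · exact ⟨0, by decide⟩
  · exact ⟨0, by decide⟩

theorem CTR (hGEO : GEO_stmt) (hDIS : DIS_stmt) : CTR_stmt := by
  intro n B P hG hP x Z hx hZ
  by_contra hcon
  have h3 : 3 ≤ Z.card := by omega
  obtain ⟨g1, g2, g3⟩ := hGEO n B P hG hP
  obtain ⟨y, hyinj, hyZ⟩ : ∃ y : Fin 3 → Fin n, Function.Injective y ∧ ∀ i, y i ∈ Z := by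
    obtain ⟨T, hTZ, hT⟩ := exists_subset_card_eq h3
    have e := T.equivFinOfCardEq hT
    refine ⟨fun i => (e.symm i : Fin n), ?_, fun i => hTZ (e.symm i).2⟩
    intro i j hij
    exact e.symm.injective (Subtype.ext hij)
  have hyx : ∀ i j, y i ≠ x j := by
    intro i j
    obtain ⟨j', hj'⟩ := CTR_other j
    exact (g2 _ _ _ (hZ (y i) (hyZ i) j j' hj')).2.2.1
  have hline : ∀ e : Fin 3 × Fin 3, ∃ l, (y e.1, l, x e.2) ∈ P := by
    intro e
    obtain ⟨j', hj'⟩ := CTR_other e.2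
    exact (g2 _ _ _ (hZ (y e.1) (hyZ e.1) e.2 j' hj')).2.2.2.2.1
  choose s hs using hline
  have hinj : Function.Injective s := by
    intro e e' hee
    refine hDIS n B P hG hP univ x y s (fun _ _ _ _ _ _ _ _ => Or.inl (mem_univ _)) hx hyinj
      (fun e _ => hs e) (fun a b b' hb _ _ => hZ (y a) (hyZ a) b b' hb) ?_ e (mem_univ _) e'
      (mem_univ _) hee
    intro a a' b ha _ _
    obtain ⟨b', hb'⟩ := CTR_other b
    exact g3 (y a) (y a') (x b) (x b') (fun h => ha (hyinj h))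
      (hZ (y a) (hyZ a) b b' hb') (hZ (y a') (hyZ a') b b' hb')
  have hinj2 : Function.Injective (Sum.elim y x) := by
    rintro (i | i) (j | j) h
    · exact congrArg Sum.inl (hyinj h)
    · exact absurd h (hyx i j)
    · exact absurd h.symm (hyx j i)
    · exact congrArg Sum.inr (hx h)
  exact hP.no y x s hinj2 hinj (fun i j => hs (i, j))

end Pool.Agent.XT
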